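import Pool.Agent.H28.GR.Defs

/-!
gr_modules PB (MP_684e05_nt): the numerical part of the crude region.
-/

set_option autoImplicit false

open Finset Pool.Agent.H28.GR

namespace Pool.Agent.H4.GR

theorem V_pos (m n : ℕ) : 0 < V (m + 1) n := by
  induction n with
  | zero => rw [V]; exact one_pos
  | succ n ih =>
    rw [V]
    omega

theorem pb_key (hR : T_VR) (s m : ℕ) (hs : 1 ≤ s) (hm : 1 ≤ m) (hsm : s ≤ 2 * m)
    (h : (0 : ℝ) < 2 * m * (-(2 * (m : ℝ)) ^ 2 + s * (s + 4) * (2 * m) -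
      (2 * s ^ 3 + 9 * s ^ 2 + 8 * s + 2)) + s ^ 2 * (s + 1)) :
    (V m (s + 3) : ℝ) < (s : ℝ) / (s + 2) * (2 * m - 2 * s - 1 - 1 / (s + 3)) * V m (s + 1) +
      s / (s + 3) * V m (s + 2) := by
  have hx : (0 : ℝ) < V m (s + 1) := by
    obtain ⟨m', rfl⟩ : ∃ m', m = m' + 1 := ⟨m - 1, by omega⟩
    exact_mod_cast V_pos m' (s + 1)
  have r1 : ((s : ℝ) + 3) * V m (s + 3) = 2 * m * V m (s + 2) + (s + 1) * V m (s + 1) := by
    have := hR m (s + 1)
    have h2 : ((s + 1 + 2 : ℕ) : ℝ) * V m (s + 1 + 2) =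
        2 * m * V m (s + 1 + 1) + ((s + 1 : ℕ) : ℝ) * V m (s + 1) := by exact_mod_cast this
    push_cast at h2
    rw [show s + 1 + 2 = s + 3 by omega, show s + 1 + 1 = s + 2 by omega] at h2
    linarith
  have r2 : ((s : ℝ) + 2) * V m (s + 2) = 2 * m * V m (s + 1) + s * V m s := by
    exact_mod_cast hR m s
  have r3 : 2 * (m : ℝ) * V m s ≤ (s + 1) * V m (s + 1) := by
    obtain ⟨t, rfl⟩ : ∃ t, s = t + 1 := ⟨s - 1, by omega⟩
    have := hR m t
    have h2 : 2 * m * V m (t + 1) ≤ (t + 2) * V m (t + 2) := by omega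
    have h3 : 2 * (m : ℝ) * V m (t + 1) ≤ ((t : ℝ) + 2) * V m (t + 2) := by exact_mod_cast h2
    push_cast
    rw [show t + 1 + 1 = t + 2 by omega]
    linarith
  generalize (V m (s + 3) : ℝ) = y3 at *
  generalize (V m (s + 2) : ℝ) = y2 at *
  generalize (V m (s + 1) : ℝ) = x at *
  generalize (V m s : ℝ) = y0 at *
  have hs0 : (0 : ℝ) < s := by exact_mod_cast hs
  have hX0 : (0 : ℝ) < 2 * m := by
    have : (0 : ℝ) < m := by exact_mod_cast hm
    linarith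
  have hsX : (s : ℝ) ≤ 2 * m := by exact_mod_cast hsm
  generalize (2 * (m : ℝ)) = X at *
  generalize (s : ℝ) = t at *
  -- bound of `y2`
  have hy2 : (t + 2) * (X * y2) ≤ (X ^ 2 + t * (t + 1)) * x := by
    have e : (t + 2) * (X * y2) = X * ((t + 2) * y2) := by ring
    rw [e, r2]
    nlinarith [mul_le_mul_of_nonneg_left r3 hs0.le]
  have goal1 : (X - t) * y2 * (t + 2) + (t + 1) * (t + 2) * x < (t * (t + 3) * (X - 2 * t - 1) - t) * x := by
    have h1 : X * ((X - t) * y2 * (t + 2)) ≤ (X - t) * ((X ^ 2 + t * (t + 1)) * x) := by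
      have := mul_le_mul_of_nonneg_left hy2 (sub_nonneg.2 hsX)
      linarith
    have h2 : (X - t) * ((X ^ 2 + t * (t + 1)) * x) + X * ((t + 1) * (t + 2) * x) <
        X * ((t * (t + 3) * (X - 2 * t - 1) - t) * x) := by
      have h3 := mul_pos h hx
      nlinarith
    have h4 : X * ((X - t) * y2 * (t + 2) + (t + 1) * (t + 2) * x) <
        X * ((t * (t + 3) * (X - 2 * t - 1) - t) * x) := by linarith
    exact lt_of_mul_lt_mul_left h4 hX0.le
  have ht3 : (0 : ℝ) < t + 3 := by linarith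
  have ht2 : (0 : ℝ) < t + 2 := by linarith
  have e1 : t / (t + 2) * (X - 2 * t - 1 - 1 / (t + 3)) * x + t / (t + 3) * y2 =
      ((t * (t + 3) * (X - 2 * t - 1) - t) * x + t * (t + 2) * y2) / ((t + 2) * (t + 3)) := by
    field_simp
  rw [e1, lt_div_iff₀ (by positivity)]
  have e2 : y3 * ((t + 2) * (t + 3)) = (t + 2) * ((t + 3) * y3) := by ring
  rw [e2, r1]
  linarith

/-- **PB** -/
theorem pb (hR : T_VR) : T_PB := by
  intro s m h
  rcases h with ⟨h1, h2, h3⟩ | ⟨rfl, h2, h3⟩ | ⟨rfl, h2, h3⟩ | ⟨rfl, h2, h3⟩ | ⟨rfl, h2, h3⟩ |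
    ⟨rfl, h2, h3⟩ | ⟨rfl, h2, h3⟩
  · refine pb_key hR s m (by omega) (by omega) (by omega) ?_
    have k1 : (12 : ℝ) ≤ s := by exact_mod_cast h1
    have k2 : (s : ℝ) + 3 ≤ m := by exact_mod_cast h2
    have k3 : 2 * (m : ℝ) + 6 ≤ s ^ 2 + 2 * s := by exact_mod_cast h3
    have k4 : (0 : ℝ) ≤ (2 * m - 2 * s - 6) * (s ^ 2 + 2 * s - 6 - 2 * m) :=
      mul_nonneg (by linarith) (by linarith)
    have k5 : (0 : ℝ) < s ^ 2 - 8 * s - 38 := by nlinarith
    have k6 : (-(2 * (m : ℝ)) ^ 2 + s * (s + 4) * (2 * m) - (2 * s ^ 3 + 9 * s ^ 2 + 8 * s + 2)) =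
        (2 * m - 2 * s - 6) * (s ^ 2 + 2 * s - 6 - 2 * m) + (s ^ 2 - 8 * s - 38) := by ring
    rw [k6]
    have k7 : (0 : ℝ) < (2 * m - 2 * s - 6) * (s ^ 2 + 2 * s - 6 - 2 * m) + (s ^ 2 - 8 * s - 38) := by
      linarith
    have k8 : (0 : ℝ) < 2 * m := by linarith
    have k9 := mul_pos k8 k7
    have k10 : (0 : ℝ) ≤ (s : ℝ) ^ 2 * (s + 1) := by positivity
    linarith
  all_goals
    refine pb_key hR _ m (by omega) (by omega) (by omega) ?_
    interval_cases m <;> norm_num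

end Pool.Agent.H4.GR
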