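import Pool.Agent.H28.GR.Defs

/-!
gr_modules VC (MP_684e05_nt): counting the vectors of norm `n`.
-/

set_option autoImplicit false

open Finset Pool.Agent.H23.GW Pool.Agent.H23.GC Pool.Agent.H23.GF Pool.Agent.H28.GR
open scoped Classical

namespace Pool.Agent.H4.GR

noncomputable section

theorem nrm_option {ι : Type} [Fintype ι] (c : Option ι → ℤ) :
    nrm c = (c none).natAbs + nrm (fun i => c (some i)) := by
  unfold nrm
  rw [Fintype.sum_option]

theorem nrm_update {ι : Type} [Fintype ι] (c : Option ι → ℤ) (x : ℤ) :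
    nrm (Function.update c none x) = x.natAbs + nrm (fun i => c (some i)) := by
  rw [nrm_option]
  simp

theorem card_zero {ι : Type} [Fintype ι] (n : ℕ) :
    #{c ∈ Vn (Option ι) n | c none = 0} = #(Vn ι n) := by
  refine card_bij' (fun c _ => fun i => c (some i)) (fun c _ => fun o => o.elim 0 c) ?_ ?_ ?_ ?_
  · intro c hc
    rw [mem_filter, mem_Vn, nrm_option] at hc
    rw [mem_Vn]
    obtain ⟨h1, h2⟩ := hc
    rw [h2] at h1
    simpa using h1
  · intro c hc
    rw [mem_Vn] at hc
    rw [mem_filter, mem_Vn, nrm_option]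
    simp [hc]
  · intro c hc
    rw [mem_filter] at hc
    funext o
    cases o with
    | none => simp [hc.2]
    | some i => rfl
  · intro c _
    rfl

theorem card_pos {ι : Type} [Fintype ι] (n : ℕ) :
    #{c ∈ Vn (Option ι) (n + 1) | 0 < c none} = #{c ∈ Vn (Option ι) n | 0 ≤ c none} := by
  refine card_bij' (fun c _ => Function.update c none (c none - 1))
    (fun c _ => Function.update c none (c none + 1)) ?_ ?_ ?_ ?_
  · intro c hc
    rw [mem_filter, mem_Vn, nrm_option] at hc
    rw [mem_filter, mem_Vn, nrm_update, Function.update_self]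
    omega
  · intro c hc
    rw [mem_filter, mem_Vn, nrm_option] at hc
    rw [mem_filter, mem_Vn, nrm_update, Function.update_self]
    omega
  · intro c _
    simp
  · intro c _
    simp

theorem card_neg {ι : Type} [Fintype ι] (n : ℕ) :
    #{c ∈ Vn (Option ι) (n + 1) | c none < 0} = #{c ∈ Vn (Option ι) n | c none ≤ 0} := by
  refine card_bij' (fun c _ => Function.update c none (c none + 1))
    (fun c _ => Function.update c none (c none - 1)) ?_ ?_ ?_ ?_
  · intro c hc
    rw [mem_filter, mem_Vn, nrm_option] at hc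
    rw [mem_filter, mem_Vn, nrm_update, Function.update_self]
    omega
  · intro c hc
    rw [mem_filter, mem_Vn, nrm_option] at hc
    rw [mem_filter, mem_Vn, nrm_update, Function.update_self]
    omega
  · intro c _
    simp
  · intro c _
    simp

theorem rec_option {ι : Type} [Fintype ι] (n : ℕ) :
    #(Vn (Option ι) (n + 1)) = #(Vn ι (n + 1)) + #(Vn ι n) + #(Vn (Option ι) n) := by
  have e1 : #(Vn (Option ι) (n + 1)) = #{c ∈ Vn (Option ι) (n + 1) | c none = 0} +
      (#{c ∈ Vn (Option ι) (n + 1) | 0 < c none} + #{c ∈ Vn (Option ι) (n + 1) | c none < 0}) := by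
    simp only [Finset.card_filter]
    rw [← Finset.sum_add_distrib, ← Finset.sum_add_distrib, Finset.card_eq_sum_ones]
    refine Finset.sum_congr rfl fun c _ => ?_
    rcases lt_trichotomy (c none) 0 with h | h | h
    · simp [h, h.ne, h.not_gt]
    · simp [h]
    · simp [h, h.ne', h.not_gt]
  have e2 : #{c ∈ Vn (Option ι) n | 0 ≤ c none} + #{c ∈ Vn (Option ι) n | c none ≤ 0} =
      #(Vn (Option ι) n) + #{c ∈ Vn (Option ι) n | c none = 0} := by
    simp only [Finset.card_filter]
    rw [← Finset.sum_add_distrib, Finset.card_eq_sum_ones, ← Finset.sum_add_distrib]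
    refine Finset.sum_congr rfl fun c _ => ?_
    rcases lt_trichotomy (c none) 0 with h | h | h
    · simp [h.ne, h.le, h]
    · simp [h]
    · simp [h.ne', h.le, h]
  rw [card_zero] at e1 e2
  rw [card_pos, card_neg] at e1
  omega

theorem card_equiv {ι κ : Type} [Fintype ι] [Fintype κ] (e : ι ≃ κ) (n : ℕ) :
    #(Vn ι n) = #(Vn κ n) := by
  have hn : ∀ c : κ → ℤ, nrm (fun i => c (e i)) = nrm c := fun c =>
    Equiv.sum_comp e fun j => (c j).natAbs
  have hn' : ∀ c : ι → ℤ, nrm (fun j => c (e.symm j)) = nrm c := fun c =>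
    Equiv.sum_comp e.symm fun j => (c j).natAbs
  refine card_bij' (fun c _ => fun j => c (e.symm j)) (fun c _ => fun i => c (e i)) ?_ ?_ ?_ ?_
  · intro c hc
    rw [mem_Vn] at hc ⊢
    rw [hn', hc]
  · intro c hc
    rw [mem_Vn] at hc ⊢
    rw [hn, hc]
  · intro c _
    funext i
    simp
  · intro c _
    funext i
    simp

theorem V_zero_right (m : ℕ) : V m 0 = 1 := by
  rw [V]

theorem V_zero_left (n : ℕ) : V 0 (n + 1) = 0 := by
  rw [V]

theorem V_succ (m n : ℕ) : V (m + 1) (n + 1) = V m (n + 1) + V m n + V (m + 1) n := by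
  rw [V]

theorem card_norm_zero (ι : Type) [Fintype ι] : #(Vn ι 0) = 1 := by
  rw [Finset.card_eq_one]
  refine ⟨0, ?_⟩
  ext c
  rw [mem_Vn, mem_singleton]
  unfold nrm
  rw [Finset.sum_eq_zero_iff]
  constructor
  · intro h
    funext i
    simpa using h i (mem_univ i)
  · rintro rfl i _
    simp

/-- **VC** -/
theorem vc : T_VC := by
  intro ι hι
  refine Fintype.induction_empty_option
    (P := fun ι hι => ∀ n, #(@Vn ι hι n) = V (@Fintype.card ι hι) n) ?_ ?_ ?_ ι
  · intro α β hβ e h n
    let _ : Fintype α := Fintype.ofEquiv β e.symm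
    rw [← card_equiv e n, h n, Fintype.card_congr e]
  · intro n
    cases n with
    | zero => rw [card_norm_zero, V_zero_right]
    | succ n =>
      have h0 : Fintype.card PEmpty = 0 := rfl
      rw [h0, V_zero_left, Finset.card_eq_zero, Finset.eq_empty_iff_forall_notMem]
      intro c hc
      rw [mem_Vn] at hc
      unfold nrm at hc
      simp at hc
  · intro α hα h n
    rw [Fintype.card_option]
    induction n with
    | zero => rw [card_norm_zero, V_zero_right]
    | succ n ih => rw [rec_option, ih, h, h, V_succ]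

end

end Pool.Agent.H4.GR
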