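import Pool.Agent.H28.GR.Defs

/-!
gr_modules VX (MP_684e05_nt): the vertex argument.
-/

set_option autoImplicit false

open Finset Pool.Agent.H23.GW Pool.Agent.H23.GC Pool.Agent.H23.GF Pool.Agent.H28.GR
open scoped Classical

namespace Pool.Agent.H4.GR

noncomputable section

theorem nrm_split {ι : Type} [Fintype ι] (e : ι) (c : ι → ℤ) :
    nrm c = (c e).natAbs + ∑ i ∈ univ.erase e, (c i).natAbs := by
  unfold nrm
  exact (Finset.add_sum_erase univ (fun i => (c i).natAbs) (mem_univ e)).symm

theorem card_Le_le_one {ι : Type} [Fintype ι] {G : Type} [AddCommGroup G] {s : ℕ}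
    {ev : (ι → ℤ) →+ G} (h : PC s ev) (c : ι → ℤ) (hc : nrm c = s + 1) :
    #{v ∈ Lv ev (2 * s + 1) | Le c v} ≤ 1 := by
  rw [Finset.card_le_one]
  intro a ha b hb
  rw [mem_filter] at ha hb
  obtain ⟨w, -, hw⟩ := R1 h (mem_Vn.2 hc)
  rw [hw a ha, hw b hb]

/-- **VX** -/
theorem vx : T_VX := by
  intro ι _ G _ s k ev h h2k hk1 hks
  have hk2 : 2 ≤ k := by
    by_contra hlt
    have : k = 0 ∨ k = 1 := by omega
    rcases this with rfl | rfl
    · simp at h2k
      omega
    · simp at h2k
      omega
  have hsk : k ≤ s := by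
    have h1 : (k - 1) * 2 ≤ (k - 1) * (Fintype.card ι - 1) :=
      Nat.mul_le_mul_left _ (by omega)
    omega
  have hne : Nonempty ι := Fintype.card_pos_iff.1 (by omega)
  obtain ⟨e1⟩ := hne
  have hcardE : #(univ.erase e1 : Finset ι) = Fintype.card ι - 1 := by
    rw [Finset.card_erase_of_mem (mem_univ _), Finset.card_univ]
  obtain ⟨S, hS, hSk⟩ := Finset.exists_subset_card_eq (s := univ.erase e1) (n := k)
    (by rw [hcardE]; omega)
  have heS : e1 ∉ S := fun h => by
    have := hS h
    simp at this
  -- the vectors of the sign patterns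
  set cT : Finset ι → ι → ℤ := fun T i => if i = e1 then ((s + 1 - k : ℕ) : ℤ) else
    if i ∈ T then 1 else if i ∈ S then -1 else 0 with hcT
  have hcTn : ∀ T ∈ S.powerset, nrm (cT T) = s + 1 := by
    intro T hT
    rw [mem_powerset] at hT
    rw [nrm_split e1]
    have e2 : ∑ i ∈ univ.erase e1, (cT T i).natAbs = ∑ i ∈ univ.erase e1, if i ∈ S then 1 else 0 := by
      refine Finset.sum_congr rfl fun i hi => ?_
      rw [mem_erase] at hi
      simp only [hcT, if_neg hi.1]
      by_cases h1 : i ∈ T
      · rw [if_pos h1, if_pos (hT h1)]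
        rfl
      · rw [if_neg h1]
        by_cases h2 : i ∈ S
        · rw [if_pos h2, if_pos h2]
          rfl
        · rw [if_neg h2, if_neg h2]
          rfl
    rw [e2, Finset.sum_ite_mem, Finset.inter_eq_right.2 hS]
    simp only [hcT, if_true, Finset.sum_const, hSk, smul_eq_mul, mul_one, Int.natAbs_natCast]
    omega
  have hex : ∀ T, T ∈ S.powerset → ∃ v, v ∈ Lv ev (2 * s + 1) ∧ Le (cT T) v := fun T hT => by
    obtain ⟨v, hv, -⟩ := R1 h (mem_Vn.2 (hcTn T hT))
    exact ⟨v, hv⟩
  choose! f hf using hex
  set B : Finset (ι → ℤ) := {v ∈ Lv ev (2 * s + 1) | ((s + 1 - k : ℕ) : ℤ) ≤ v e1} with hB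
  have hlow : 2 ^ k ≤ #B := by
    rw [← hSk, ← Finset.card_powerset]
    refine Finset.card_le_card_of_injOn f ?_ ?_
    · intro T hT
      have hT' : T ∈ S.powerset := hT
      obtain ⟨h1, h2⟩ := hf T hT'
      rw [Le_iff] at h2
      have h3 := h2 e1
      simp only [hcT, if_true] at h3
      show f T ∈ B
      rw [hB, mem_filter]
      refine ⟨h1, ?_⟩
      omega
    · intro T hT T' hT' heq
      have hT1 : T ∈ S.powerset := hT
      have hT2 : T' ∈ S.powerset := hT'
      have key : ∀ T ∈ S.powerset, ∀ j, j ∈ T ↔ j ∈ S ∧ 0 < f T j := by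
        intro T hT j
        obtain ⟨-, h2⟩ := hf T hT
        rw [mem_powerset] at hT
        rw [Le_iff] at h2
        have h3 := h2 j
        constructor
        · intro hj
          have hjS := hT hj
          have hje : j ≠ e1 := fun h => heS (h ▸ hjS)
          simp only [hcT, if_neg hje, if_pos hj] at h3
          exact ⟨hjS, by omega⟩
        · rintro ⟨hjS, hpos⟩
          by_contra hj
          have hje : j ≠ e1 := fun h => heS (h ▸ hjS)
          simp only [hcT, if_neg hje, if_neg hj, if_pos hjS] at h3
          omega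
      ext j
      rw [key T hT1 j, key T' hT2 j, heq]
  -- upper bound
  set c0 : ι → ℤ := fun i => if i = e1 then ((s + 1 : ℕ) : ℤ) else 0 with hc0
  have hc0n : nrm c0 = s + 1 := by
    rw [nrm_split e1]
    have e2 : ∑ i ∈ univ.erase e1, (c0 i).natAbs = 0 := by
      refine Finset.sum_eq_zero fun i hi => ?_
      rw [mem_erase] at hi
      simp only [hc0, if_neg hi.1]
      rfl
    rw [e2]
    simp only [hc0, if_true, Int.natAbs_natCast]
  set cc : ι × Bool → ι → ℤ := fun p i => if i = e1 then ((s + 1 - k : ℕ) : ℤ) else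
    if i = p.1 then (if p.2 then (k : ℤ) else -(k : ℤ)) else 0 with hcc
  have hccn : ∀ p : ι × Bool, p.1 ≠ e1 → nrm (cc p) = s + 1 := by
    intro p hp
    rw [nrm_split e1]
    have e2 : ∑ i ∈ univ.erase e1, (cc p i).natAbs = ∑ i ∈ univ.erase e1, if i = p.1 then k else 0 := by
      refine Finset.sum_congr rfl fun i hi => ?_
      rw [mem_erase] at hi
      simp only [hcc, if_neg hi.1]
      by_cases h1 : i = p.1
      · rw [if_pos h1, if_pos h1]
        split_ifs
        · exact Int.natAbs_natCast k
        · rw [Int.natAbs_neg, Int.natAbs_natCast]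
      · rw [if_neg h1, if_neg h1]
        rfl
    rw [e2, Finset.sum_ite_eq', if_pos (mem_erase.2 ⟨hp, mem_univ _⟩)]
    simp only [hcc, if_true, Int.natAbs_natCast]
    omega
  have hsub : B ⊆ ({v ∈ Lv ev (2 * s + 1) | Le c0 v} : Finset (ι → ℤ)) ∪
      (univ.erase e1 ×ˢ (univ : Finset Bool)).biUnion
        (fun p => ({v ∈ Lv ev (2 * s + 1) | Le (cc p) v} : Finset (ι → ℤ))) := by
    intro v hv
    rw [hB, mem_filter] at hv
    obtain ⟨hvL, hv1⟩ := hv
    rw [mem_union]
    by_cases hbig : ((s + 1 : ℕ) : ℤ) ≤ v e1
    · left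
      rw [mem_filter]
      refine ⟨hvL, ?_⟩
      rw [Le_iff]
      intro i
      by_cases hi : i = e1
      · subst hi
        simp only [hc0, if_true]
        omega
      · simp only [hc0, if_neg hi]
        omega
    · right
      have hj : ∃ j ∈ univ.erase e1, k ≤ (v j).natAbs := by
        by_contra hcon
        push Not at hcon
        have h1 : ∑ i ∈ univ.erase e1, (v i).natAbs ≤ ∑ _i ∈ univ.erase e1, (k - 1) :=
          Finset.sum_le_sum fun i hi => by
            have := hcon i hi
            omega
        rw [Finset.sum_const, hcardE, smul_eq_mul, mul_comm] at h1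
        have h2 := nrm_split e1 v
        have h3 := (mem_Lv.1 hvL).1
        omega
      obtain ⟨j, hj, hjk⟩ := hj
      rw [mem_biUnion]
      refine ⟨(j, decide (0 < v j)), ?_, ?_⟩
      · rw [mem_product]
        exact ⟨hj, mem_univ _⟩
      · rw [mem_filter]
        refine ⟨hvL, ?_⟩
        rw [Le_iff]
        intro i
        rw [mem_erase] at hj
        by_cases hi : i = e1
        · subst hi
          simp only [hcc, if_true]
          omega
        · by_cases hij : i = j
          · subst hij
            simp only [hcc, if_neg hi, if_true]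
            by_cases hp : 0 < v i
            · simp only [hp, decide_true, if_true]
              omega
            · simp only [hp, decide_false, Bool.false_eq_true, if_false]
              omega
          · simp only [hcc, if_neg hi, if_neg hij]
            omega
  have hup : #B ≤ 1 + (Fintype.card ι - 1) * 2 := by
    refine (Finset.card_le_card hsub).trans ((Finset.card_union_le _ _).trans ?_)
    refine Nat.add_le_add (card_Le_le_one h c0 hc0n) ?_
    refine Finset.card_biUnion_le.trans ?_
    calc ∑ p ∈ univ.erase e1 ×ˢ (univ : Finset Bool), #{v ∈ Lv ev (2 * s + 1) | Le (cc p) v}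
        ≤ ∑ _p ∈ univ.erase e1 ×ˢ (univ : Finset Bool), 1 := by
          refine Finset.sum_le_sum fun p hp => ?_
          rw [mem_product, mem_erase] at hp
          exact card_Le_le_one h (cc p) (hccn p hp.1.1)
      _ = (Fintype.card ι - 1) * 2 := by
          rw [Finset.sum_const, Finset.card_product, hcardE]
          simp
  omega

end

end Pool.Agent.H4.GR
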