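import Pool.Agent.H28.GR.RAB

/-!
gr_modules W (MP_684e05_nt): symmetry, unimodality and ratios of the number of sub-vectors.
-/

set_option autoImplicit false

open Finset Pool.Agent.H23.GW Pool.Agent.H23.GC Pool.Agent.H23.GF Pool.Agent.H28.GR
open scoped Classical

namespace Pool.Agent.H4.GR

noncomputable section

variable {ι : Type} [Fintype ι]

/-- the number of sub-vectors, extended by zero to the negative integers -/
def Wz (a : ι → ℕ) (j : ℤ) : ℤ := if 0 ≤ j then (#(sv a j.toNat) : ℤ) else 0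

theorem Wz_coe (a : ι → ℕ) (n : ℕ) : Wz a n = #(sv a n) := by
  unfold Wz
  rw [if_pos (by omega)]
  simp

theorem Wz_neg (a : ι → ℕ) {j : ℤ} (hj : j < 0) : Wz a j = 0 := by
  unfold Wz
  rw [if_neg (by omega)]

theorem Wz_nonneg (a : ι → ℕ) (j : ℤ) : 0 ≤ Wz a j := by
  unfold Wz
  split_ifs
  · positivity
  · exact le_rfl

theorem card_symm (a : ι → ℕ) (n n' : ℕ) (h : n + n' = ∑ i, a i) : #(sv a n) = #(sv a n') := by
  have key : ∀ n n' : ℕ, n + n' = ∑ i, a i → ∀ u ∈ sv a n, (fun i => a i - u i) ∈ sv a n' := by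
    intro n n' h u hu
    rw [mem_sv] at hu ⊢
    obtain ⟨h1, h2⟩ := hu
    refine ⟨fun i => Nat.sub_le _ _, ?_⟩
    rw [Finset.sum_tsub_distrib _ (fun i _ => h1 i)]
    omega
  refine card_bij' (fun u _ => fun i => a i - u i) (fun u _ => fun i => a i - u i)
    (key n n' h) (key n' n (by omega)) ?_ ?_
  · intro u hu
    rw [mem_sv] at hu
    funext i
    have := hu.1 i
    show a i - (a i - u i) = u i
    omega
  · intro u hu
    rw [mem_sv] at hu
    funext i
    have := hu.1 i
    show a i - (a i - u i) = u i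
    omega

theorem Wz_symm (a : ι → ℕ) (j : ℤ) : Wz a j = Wz a ((∑ i, a i : ℕ) - j) := by
  have key : ∀ n : ℕ, (∑ i, a i : ℕ) < n → Wz a n = 0 := fun n hn => by
    rw [Wz_coe, sv_empty a n hn]
    rfl
  rcases lt_or_ge j 0 with hj | hj
  · rw [Wz_neg a hj]
    obtain ⟨n, hn⟩ := Int.eq_ofNat_of_zero_le (show 0 ≤ ((∑ i, a i : ℕ) : ℤ) - j by omega)
    rw [hn, key n (by omega)]
  · obtain ⟨n, rfl⟩ := Int.eq_ofNat_of_zero_le hj
    rcases Nat.lt_or_ge (∑ i, a i) n with h | h
    · rw [Wz_neg a (show ((∑ i, a i : ℕ) : ℤ) - n < 0 by omega)]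
      exact key n h
    · have e : ((∑ i, a i : ℕ) : ℤ) - n = ((∑ i, a i - n : ℕ) : ℤ) := by omega
      rw [e, Wz_coe a (∑ i, a i - n), Wz_coe, card_symm a n (∑ i, a i - n) (by omega)]

theorem card_fib (a : ι → ℕ) (i : ι) (n k : ℕ) (hk : k ≤ a i) :
    (#{u ∈ sv a n | u i = k} : ℤ) = Wz (Function.update a i 0) ((n : ℤ) - k) := by
  rcases Nat.lt_or_ge n k with h | h
  · rw [Wz_neg _ (by omega)]
    have : ({u ∈ sv a n | u i = k} : Finset (ι → ℕ)) = ∅ := by
      rw [Finset.eq_empty_iff_forall_notMem]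
      intro u hu
      rw [mem_filter, mem_sv] at hu
      have := Finset.single_le_sum (f := u) (fun _ _ => Nat.zero_le _) (mem_univ i)
      omega
    rw [this]
    rfl
  · rw [card_sv_eq a n k i hk h]
    have e : (n : ℤ) - k = ((n - k : ℕ) : ℤ) := by omega
    rw [e, Wz_coe]

theorem sum_fib (a : ι → ℕ) (i : ι) (n : ℕ) (φ : ℕ → ℤ) :
    ∑ u ∈ sv a n, φ (u i) =
      ∑ k ∈ range (a i + 1), φ k * Wz (Function.update a i 0) ((n : ℤ) - k) := by
  have hmaps : ∀ u ∈ sv a n, u i ∈ range (a i + 1) := fun u hu => by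
    rw [mem_sv] at hu
    rw [mem_range]
    have := hu.1 i
    omega
  rw [← Finset.sum_fiberwise_of_maps_to hmaps]
  refine Finset.sum_congr rfl fun k hk => ?_
  rw [mem_range] at hk
  rw [← card_fib a i n k (by omega)]
  rw [Finset.sum_congr rfl (g := fun _ => φ k) (fun u hu => by rw [(mem_filter.1 hu).2])]
  rw [Finset.sum_const, nsmul_eq_mul, mul_comm]

theorem Wz_sum (a : ι → ℕ) (i : ι) (j : ℤ) :
    Wz a j = ∑ k ∈ range (a i + 1), Wz (Function.update a i 0) (j - k) := by
  rcases lt_or_ge j 0 with hj | hj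
  · rw [Wz_neg a hj]
    refine (Finset.sum_eq_zero fun k _ => Wz_neg _ (by omega)).symm
  · obtain ⟨n, rfl⟩ := Int.eq_ofNat_of_zero_le hj
    have := sum_fib a i n (fun _ => 1)
    simp only [Finset.sum_const, nsmul_eq_mul, mul_one, one_mul] at this
    rw [← Wz_coe] at this
    exact this

theorem Wz_rec (a : ι → ℕ) (i : ι) (j : ℤ) :
    Wz a (j + 1) + Wz (Function.update a i 0) (j - a i) =
      Wz a j + Wz (Function.update a i 0) (j + 1) := by
  rw [Wz_sum a i (j + 1), Wz_sum a i j, Finset.sum_range_succ', Finset.sum_range_succ]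
  have : ∀ k : ℕ, j + 1 - ((k + 1 : ℕ) : ℤ) = j - k := fun k => by push_cast; ring
  simp only [this]
  push_cast
  rw [sub_zero]
  ring

theorem Wz_uni (N : ℕ) : ∀ (a : ι → ℕ), ∑ i, a i = N → ∀ j j' : ℤ, j ≤ j' → j + j' ≤ N →
    Wz a j ≤ Wz a j' := by
  induction N using Nat.strong_induction_on with
  | _ N ih =>
    intro a ha
    by_cases hz : ∀ i, a i = 0
    · have hN : N = 0 := by
        rw [← ha]
        exact Finset.sum_eq_zero fun i _ => hz i
      subst hN
      intro j j' h1 h2
      rcases lt_or_ge j 0 with hj | hj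
      · rw [Wz_neg a hj]
        exact Wz_nonneg a j'
      · have : j = j' := by
          push_cast at h2
          omega
        rw [this]
    · push Not at hz
      obtain ⟨i, hi⟩ := hz
      have hsum := sum_update_zero a i
      have ihU := ih (∑ j, Function.update a i 0 j) (by omega) (Function.update a i 0) rfl
      have step : ∀ j : ℤ, 2 * j + 1 ≤ N → Wz a j ≤ Wz a (j + 1) := by
        intro j hj
        have h1 := Wz_rec a i j
        have h2 := ihU (j - a i) (j + 1) (by omega) (by omega)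
        linarith
      have chain : ∀ (t : ℕ) (j : ℤ), 2 * (j + t) ≤ N + 1 → Wz a j ≤ Wz a (j + t) := by
        intro t
        induction t with
        | zero => intro j _; simp
        | succ t iht =>
          intro j hj
          push_cast at hj
          refine (iht j (by omega)).trans ?_
          have := step (j + t) (by omega)
          push_cast
          rw [← add_assoc]
          exact this
      intro j j' h1 h2
      rcases le_or_gt (2 * j') (N + 1) with h | h
      · obtain ⟨t, ht⟩ := Int.eq_ofNat_of_zero_le (show 0 ≤ j' - j by omega)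
        have := chain t j (by omega)
        have e : j + (t : ℤ) = j' := by omega
        rwa [e] at this
      · rw [Wz_symm a j', ha]
        obtain ⟨t, ht⟩ := Int.eq_ofNat_of_zero_le (show 0 ≤ (N : ℤ) - j' - j by omega)
        have := chain t j (by omega)
        have e : j + (t : ℤ) = N - j' := by omega
        rwa [e] at this

theorem reflect_sum (b : ℕ) (w : ℕ → ℤ) (hw : ∀ k < b, 2 * k + 1 ≤ b → w (b - 1 - k) ≤ w k) :
    0 ≤ ∑ k ∈ range b, ((b : ℤ) - 1 - 2 * k) * w k := by
  have h1 := Finset.sum_range_reflect (fun k => ((b : ℤ) - 1 - 2 * k) * w k) b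
  have h2 : 2 * ∑ k ∈ range b, ((b : ℤ) - 1 - 2 * k) * w k =
      ∑ k ∈ range b, ((b : ℤ) - 1 - 2 * k) * (w k - w (b - 1 - k)) := by
    rw [two_mul]
    nth_rw 2 [← h1]
    rw [← Finset.sum_add_distrib]
    refine Finset.sum_congr rfl fun k hk => ?_
    rw [mem_range] at hk
    have e : ((b - 1 - k : ℕ) : ℤ) = (b : ℤ) - 1 - k := by omega
    rw [e]
    ring
  have h3 : 0 ≤ ∑ k ∈ range b, ((b : ℤ) - 1 - 2 * k) * (w k - w (b - 1 - k)) := by
    refine Finset.sum_nonneg fun k hk => ?_
    rw [mem_range] at hk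
    rcases Nat.lt_or_ge b (2 * k + 1) with h | h
    · have h4 := hw (b - 1 - k) (by omega) (by omega)
      rw [show b - 1 - (b - 1 - k) = k by omega] at h4
      exact mul_nonneg_of_nonpos_of_nonpos (by omega) (by linarith)
    · have h4 := hw k hk h
      exact mul_nonneg (by omega) (by linarith)
  omega

/-- **W** -/
theorem w : Pool.Agent.H28.GR.T_W := by
  intro ι _ a
  refine ⟨fun n n' h => card_symm a n n' h, ?_, ?_, ?_⟩
  · intro n n' h1 h2
    have := Wz_uni _ a rfl n n' (by omega) (by omega)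
    rw [Wz_coe, Wz_coe] at this
    exact_mod_cast this
  · intro n n' h1 h2
    have := Wz_uni _ a rfl ((∑ i, a i : ℕ) - n) ((∑ i, a i : ℕ) - n') (by omega) (by omega)
    rw [← Wz_symm, ← Wz_symm, Wz_coe, Wz_coe] at this
    exact_mod_cast this
  · intro n hn
    have e1 : ((n : ℤ) + 1) * #(sv a (n + 1)) = ∑ i, ∑ k ∈ range (a i),
        ((k : ℤ) + 1) * Wz (Function.update a i 0) ((n : ℤ) - k) := by
      have h1 : ((n : ℤ) + 1) * #(sv a (n + 1)) = ∑ u ∈ sv a (n + 1), ∑ i, (u i : ℤ) := by
        rw [Finset.sum_congr rfl (g := fun _ => (n : ℤ) + 1) (fun u hu => by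
          have := (mem_sv.1 hu).2
          rw [← Nat.cast_sum, this]
          push_cast
          rfl)]
        rw [Finset.sum_const, nsmul_eq_mul, mul_comm]
      rw [h1, Finset.sum_comm]
      refine Finset.sum_congr rfl fun i _ => ?_
      rw [sum_fib a i (n + 1) (fun k => (k : ℤ)), Finset.sum_range_succ']
      push_cast
      rw [zero_mul, add_zero]
      refine Finset.sum_congr rfl fun k _ => ?_
      congr 2
      ring
    have e2 : (((∑ i, a i : ℕ) : ℤ) - n) * #(sv a n) = ∑ i, ∑ k ∈ range (a i),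
        ((a i : ℤ) - k) * Wz (Function.update a i 0) ((n : ℤ) - k) := by
      have h1 : (((∑ i, a i : ℕ) : ℤ) - n) * #(sv a n) =
          ∑ u ∈ sv a n, ∑ i, ((a i : ℤ) - (u i : ℤ)) := by
        rw [Finset.sum_congr rfl (g := fun _ => ((∑ i, a i : ℕ) : ℤ) - n) (fun u hu => by
          have := (mem_sv.1 hu).2
          rw [Finset.sum_sub_distrib, ← Nat.cast_sum, ← Nat.cast_sum, this])]
        rw [Finset.sum_const, nsmul_eq_mul, mul_comm]
      rw [h1, Finset.sum_comm]
      refine Finset.sum_congr rfl fun i _ => ?_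
      rw [sum_fib a i n (fun k => (a i : ℤ) - (k : ℤ)), Finset.sum_range_succ]
      rw [sub_self, zero_mul, add_zero]
    have h3 : ((n : ℤ) + 1) * #(sv a (n + 1)) ≤ (((∑ i, a i : ℕ) : ℤ) - n) * #(sv a n) := by
      rw [e1, e2]
      refine Finset.sum_le_sum fun i _ => ?_
      rw [← sub_nonneg, ← Finset.sum_sub_distrib]
      have h4 := reflect_sum (a i) (fun k => Wz (Function.update a i 0) ((n : ℤ) - k)) ?_
      · refine h4.trans (le_of_eq (Finset.sum_congr rfl fun k _ => ?_))
        ring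
      · intro k hk1 hk2
        have hsum := sum_update_zero a i
        refine Wz_uni _ _ rfl _ _ (by omega) (by omega)
    have e3 : ((∑ i, a i : ℕ) : ℤ) - n = ((∑ i, a i - n : ℕ) : ℤ) := by omega
    rw [e3] at h3
    exact_mod_cast h3

end

end Pool.Agent.H4.GR
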